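import Mathlib
import Pool.Agent.Y499.HC.Stm

/-!
# Project HC: conformally round slices
-/

set_option autoImplicit false

namespace Pool.Agent.Y888.HC

open Pool.Agent.Y499.HC Matrix

theorem sym_zero {n : Type} [Fintype n] [DecidableEq n] (S : Matrix n n ℝ) (hS : S.IsSymm)
    (h : ∀ v : n → ℝ, v ⬝ᵥ S *ᵥ v = 0) : S = 0 := by
  have hd : ∀ i, S i i = 0 := by
    intro i
    have := h (Pi.single i 1)
    simpa using this
  ext i j
  have h1 := h (Pi.single i 1 + Pi.single j 1)
  rw [mulVec_add, add_dotProduct, dotProduct_add, dotProduct_add] at h1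
  have h2 := hS.apply i j
  simp [hd] at h1
  rw [Matrix.zero_apply]
  linarith

theorem J_mul {d : ℕ} (x : E d) (hx : ∑ i, x i * x i = 1) :
    (Matrix.of fun i j => x i * x j) * (Matrix.of fun i j => x i * x j) =
      (Matrix.of fun i j => x i * x j : Matrix (Fin (d + 1)) (Fin (d + 1)) ℝ) := by
  ext i j
  rw [mul_apply]
  simp only [of_apply]
  calc ∑ k, x i * x k * (x k * x j) = x i * x j * ∑ k, x k * x k := by
        rw [Finset.mul_sum]
        exact Finset.sum_congr rfl fun k _ => by ring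
    _ = x i * x j := by rw [hx, mul_one]

theorem J_symm {d : ℕ} (x : E d) :
    (Matrix.of fun i j => x i * x j : Matrix (Fin (d + 1)) (Fin (d + 1)) ℝ).IsSymm := by
  ext i j
  simp [mul_comm]

theorem quad_eq {d : ℕ} (g : Matrix (Fin (d + 1)) (Fin (d + 1)) ℝ) (v : E d) :
    quad g v = v.ofLp ⬝ᵥ g *ᵥ v.ofLp := by
  unfold quad
  rw [dotProduct]
  refine Finset.sum_congr rfl fun i _ => ?_
  rw [mulVec, dotProduct, Finset.mul_sum]
  exact Finset.sum_congr rfl fun j _ => by ring

theorem PgP {d : ℕ} (g : Matrix (Fin (d + 1)) (Fin (d + 1)) ℝ) (hg : g.IsSymm) (x : E d)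
    (hx : ∑ i, x i * x i = 1) (k : ℝ)
    (h : ∀ v : E d, inner ℝ x v = 0 → quad g v = k ^ 2 * ‖v‖ ^ 2) :
    (1 - Matrix.of fun i j => x i * x j) * g * (1 - Matrix.of fun i j => x i * x j) =
      k ^ 2 • (1 - Matrix.of fun i j => x i * x j) := by
  set J : Matrix (Fin (d + 1)) (Fin (d + 1)) ℝ := Matrix.of fun i j => x i * x j with hJ
  have hJJ : J * J = J := J_mul x hx
  have hJt : Jᵀ = J := J_symm x
  set P := 1 - J with hP
  have hPP : P * P = P := by
    rw [hP, mul_sub, mul_one, sub_mul, one_mul, hJJ, sub_self, sub_zero]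
  have hPt : Pᵀ = P := by rw [hP, transpose_sub, transpose_one, hJt]
  rw [← sub_eq_zero]
  apply sym_zero
  · change (P * g * P - k ^ 2 • P)ᵀ = P * g * P - k ^ 2 • P
    rw [transpose_sub, transpose_mul, transpose_mul, transpose_smul, hPt, hg.eq, mul_assoc]
  · intro v
    have e1 : v ⬝ᵥ (P * g * P) *ᵥ v = (P *ᵥ v) ⬝ᵥ g *ᵥ (P *ᵥ v) := by
      rw [← mulVec_mulVec, ← mulVec_mulVec, dotProduct_mulVec, ← mulVec_transpose, hPt]
    have e2 : v ⬝ᵥ (k ^ 2 • P) *ᵥ v = k ^ 2 * ((P *ᵥ v) ⬝ᵥ (P *ᵥ v)) := by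
      have : v ⬝ᵥ P *ᵥ v = (P *ᵥ v) ⬝ᵥ (P *ᵥ v) := by
        nth_rewrite 1 [← hPP]
        rw [← mulVec_mulVec, dotProduct_mulVec, ← mulVec_transpose, hPt]
      rw [smul_mulVec, dotProduct_smul, smul_eq_mul, this]
    rw [sub_mulVec, dotProduct_sub, e1, e2]
    have h1 := h (WithLp.toLp 2 (P *ᵥ v)) (by
      rw [PiLp.inner_apply]
      have e3 : ∑ i, inner ℝ (x.ofLp i) ((P *ᵥ v) i) = (P *ᵥ v) ⬝ᵥ x.ofLp := by
        rw [dotProduct]
        refine Finset.sum_congr rfl fun i _ => ?_
        simp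
      change ∑ i, inner ℝ (x.ofLp i) ((P *ᵥ v) i) = 0
      rw [e3, dotProduct_comm, dotProduct_mulVec, ← mulVec_transpose, hPt]
      have e4 : P *ᵥ x.ofLp = 0 := by
        rw [hP, sub_mulVec, one_mulVec, sub_eq_zero]
        funext i
        rw [mulVec, dotProduct]
        simp only [hJ, of_apply]
        calc x.ofLp i = x.ofLp i * ∑ j, x.ofLp j * x.ofLp j := by rw [hx, mul_one]
          _ = _ := by
            rw [Finset.mul_sum]
            exact Finset.sum_congr rfl fun j _ => by ring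
      rw [e4, zero_dotProduct])
    rw [quad_eq] at h1
    have h2 : ‖(WithLp.toLp 2 (P *ᵥ v) : E d)‖ ^ 2 = (P *ᵥ v) ⬝ᵥ (P *ᵥ v) := by
      rw [EuclideanSpace.norm_sq_eq, dotProduct]
      refine Finset.sum_congr rfl fun i _ => ?_
      rw [Real.norm_eq_abs, sq_abs, sq]
    rw [h2] at h1
    change (P *ᵥ v) ⬝ᵥ g *ᵥ (P *ᵥ v) = k ^ 2 * ((P *ᵥ v) ⬝ᵥ (P *ᵥ v)) at h1
    rw [h1, sub_self]

theorem det_J {d : ℕ} (x : E d) (hx : ∑ i, x i * x i = 1) (c : ℝ) (hc : c ≠ 0) :
    det (c • (1 - Matrix.of fun i j => x i * x j) +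
      (Matrix.of fun i j => x i * x j : Matrix (Fin (d + 1)) (Fin (d + 1)) ℝ)) = c ^ d := by
  have h1 : c • (1 - Matrix.of fun i j => x i * x j) +
      (Matrix.of fun i j => x i * x j : Matrix (Fin (d + 1)) (Fin (d + 1)) ℝ) =
      c • (1 + replicateCol Unit (fun i => (1 - c) / c * x i) *
        replicateRow Unit (fun i => x i)) := by
    ext i j
    simp [mul_apply]
    field_simp
    ring
  rw [h1, det_smul, det_one_add_replicateCol_mul_replicateRow, Fintype.card_fin, dotProduct]
  have h2 : ∑ i, x i * ((1 - c) / c * x i) = (1 - c) / c * ∑ i, x i * x i := by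
    rw [Finset.mul_sum]
    exact Finset.sum_congr rfl fun i _ => by ring
  rw [h2, hx, mul_one, pow_succ]
  field_simp
  ring

theorem t_DET : T_DET := by
  intro d g hg x hx1 k h
  have hx : ∑ i, x i * x i = 1 := by
    have h1 := EuclideanSpace.norm_sq_eq x
    rw [hx1, one_pow] at h1
    rw [h1]
    refine Finset.sum_congr rfl fun i _ => ?_
    rw [Real.norm_eq_abs, sq_abs, sq]
  have hPgP := PgP g hg x hx k h
  constructor
  · have e1 : trace ((1 - Matrix.of fun i j => x i * x j) * g *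
        (1 - Matrix.of fun i j => x i * x j)) = trTan g x := by
      rw [mul_assoc, trace_mul_comm, mul_assoc]
      have e2 : (1 - (Matrix.of fun i j => x i * x j)) * (1 - Matrix.of fun i j => x i * x j) =
          (1 - (Matrix.of fun i j => x i * x j : Matrix (Fin (d + 1)) (Fin (d + 1)) ℝ)) := by
        rw [mul_sub, mul_one, sub_mul, one_mul, J_mul x hx, sub_self, sub_zero]
      rw [e2, mul_sub, mul_one, trace_sub]
      unfold trTan
      congr 1
      unfold trace quad
      refine Finset.sum_congr rfl fun i _ => ?_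
      rw [diag_apply, mul_apply]
      refine Finset.sum_congr rfl fun j _ => ?_
      simp only [of_apply]
      ring
    rw [← e1, hPgP, trace_smul, trace_sub, trace_one, Fintype.card_fin]
    have e3 : trace (Matrix.of fun i j => x i * x j : Matrix (Fin (d + 1)) (Fin (d + 1)) ℝ) =
        1 := by
      unfold trace
      simpa using hx
    rw [e3, smul_eq_mul]
    push_cast
    ring
  · unfold detTan
    rw [hPgP]
    have hcont : Continuous fun c : ℝ => det (c • (1 - Matrix.of fun i j => x i * x j) +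
      (Matrix.of fun i j => x i * x j : Matrix (Fin (d + 1)) (Fin (d + 1)) ℝ)) := by
      apply Continuous.matrix_det
      fun_prop
    have hext := Continuous.ext_on (dense_compl_singleton (0 : ℝ)) hcont
      (continuous_pow d) (fun c hc => det_J x hx c hc)
    exact congrFun hext (k ^ 2)

end Pool.Agent.Y888.HC
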